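import Pool.Agent.Helper68.LM2.St

/-! LM2 module DA: the dyadic maximal theorem for `1 < p < 2`. -/

set_option autoImplicit false

namespace Pool.Agent.Helper28.LM2

open Pool.Agent.Helper68.LM2 Pool.Agent.Helper68.LM
open MeasureTheory Set Filter Topology
open scoped ENNReal

private theorem lv_sum (g : ℝ × ℝ → ℝ) {lam : ℝ} (hl : 0 < lam) (z : ℝ × ℝ) (R : ℕ) :
    ∑ r ∈ Finset.range (R + 1), Lv g lam r z = if g z ≤ 2 ^ R * lam then g z else 0 := by
  induction R with
  | zero => simp [Lv]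
  | succ R ih =>
    rw [Finset.sum_range_succ, ih]
    have h2 : (2 : ℝ) ^ (R + 1) * lam / 2 = 2 ^ R * lam := by ring
    have h3 : (2 : ℝ) ^ R * lam < 2 ^ (R + 1) * lam := by
      have : 0 < (2 : ℝ) ^ R * lam := by positivity
      rw [pow_succ]
      linarith
    unfold Lv
    by_cases h4 : g z ≤ 2 ^ R * lam
    · rw [if_pos h4, if_neg, if_pos, add_zero]
      · linarith
      · rintro ⟨_, h5⟩
        have := h5 (by simp)
        rw [h2] at this
        linarith
    · rw [if_neg h4]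
      by_cases h5 : g z ≤ 2 ^ (R + 1) * lam
      · rw [if_pos, if_pos h5, zero_add]
        refine ⟨h5, fun _ => ?_⟩
        rw [h2]
        exact not_le.1 h4
      · rw [if_neg, if_neg h5, add_zero]
        rintro ⟨h6, _⟩
        exact h5 h6

private theorem lv_meas {g : ℝ × ℝ → ℝ} (hg : Measurable g) (r : ℕ) :
    Measurable (fun w : ℝ × (ℝ × ℝ) => Lv g w.1 r w.2) := by
  classical
  unfold Lv
  have h1 : MeasurableSet {w : ℝ × (ℝ × ℝ) | g w.2 ≤ 2 ^ r * w.1} :=
    measurableSet_le (hg.comp measurable_snd) (measurable_const.mul measurable_fst)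
  have h2 : MeasurableSet {w : ℝ × (ℝ × ℝ) | (r ≠ 0 → 2 ^ r * w.1 / 2 < g w.2)} := by
    by_cases hr : r = 0
    · simp [hr]
    · have h3 : {w : ℝ × (ℝ × ℝ) | (r ≠ 0 → 2 ^ r * w.1 / 2 < g w.2)} =
          {w : ℝ × (ℝ × ℝ) | 2 ^ r * w.1 / 2 < g w.2} := by
        ext w
        simp [hr]
      rw [h3]
      exact measurableSet_lt ((measurable_const.mul measurable_fst).div_const 2)
        (hg.comp measurable_snd)
  exact Measurable.ite (h1.inter h2) (hg.comp measurable_snd) measurable_const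

private theorem lv_br (hEB : StEB) {g : ℝ × ℝ → ℝ} (hg : BR g) (lam : ℝ) (r : ℕ) :
    BR (Lv g lam r) := by
  classical
  have h1 : MeasurableSet {z : ℝ × ℝ | g z ≤ 2 ^ r * lam ∧ (r ≠ 0 → 2 ^ r * lam / 2 < g z)} := by
    have h1 : MeasurableSet {z : ℝ × ℝ | g z ≤ 2 ^ r * lam} :=
      measurableSet_le hg.1 measurable_const
    have h2 : MeasurableSet {z : ℝ × ℝ | (r ≠ 0 → 2 ^ r * lam / 2 < g z)} := by
      by_cases hr : r = 0
      · simp [hr]
      · have h3 : {z : ℝ × ℝ | (r ≠ 0 → 2 ^ r * lam / 2 < g z)} =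
            {z : ℝ × ℝ | 2 ^ r * lam / 2 < g z} := by
          ext w
          simp [hr]
        rw [h3]
        exact measurableSet_lt measurable_const hg.1
    exact h1.inter h2
  have h2 := hEB.2.2.1 g _ hg h1
  have h3 : Lv g lam r =
      {z : ℝ × ℝ | g z ≤ 2 ^ r * lam ∧ (r ≠ 0 → 2 ^ r * lam / 2 < g z)}.indicator g := by
    funext z
    simp only [Lv, Set.indicator, mem_setOf_eq]
  rw [h3]
  exact h2

private theorem vc_sum (hEB : StEB) {τ : ℕ → ℝ} {m₀ : ℕ}
    (hR9 : ∀ n k g h z, BR g → BR h →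
      Vc τ m₀ k n (fun w => g w + h w) z = Vc τ m₀ k n g z + Vc τ m₀ k n h z)
    (n : ℕ) (k : ℤ) (h : ℕ → ℝ × ℝ → ℝ) (hb : ∀ r, BR (h r)) (z : ℝ × ℝ) (R : ℕ) :
    BR (fun w => ∑ r ∈ Finset.range (R + 1), h r w) ∧
    Vc τ m₀ k n (fun w => ∑ r ∈ Finset.range (R + 1), h r w) z =
      ∑ r ∈ Finset.range (R + 1), Vc τ m₀ k n (h r) z := by
  induction R with
  | zero => simpa using hb 0
  | succ R ih =>
    have h1 : (fun w => ∑ r ∈ Finset.range (R + 1 + 1), h r w) =
        fun w => (fun w => ∑ r ∈ Finset.range (R + 1), h r w) w + h (R + 1) w := by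
      funext w
      rw [Finset.sum_range_succ]
    rw [h1]
    refine ⟨(hEB.2.1 _ _ ih.1 (hb _)).1, ?_⟩
    rw [hR9 n k _ _ z ih.1 (hb _), ih.2, Finset.sum_range_succ _ (R + 1)]

theorem hDA (hLCG : StLCG) (hEB : StEB) (hRHO : StRHO) (hFAR : StFAR) (hNEAR : StNEAR)
    (hLI : StLI) (hWS : StWS) : StDA := by
  classical
  intro p ϖ m₀ hp1 hp2 hϖ
  obtain ⟨ε, CW, hε0, hε1, hCW, hW⟩ := hWS p hp1 hp2
  obtain ⟨CF, hCF, hF⟩ := hFAR ϖ ε hϖ hε0
  obtain ⟨CN, hCN, hN⟩ := hNEAR ε hε0 hε1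
  obtain ⟨CL, hCL, hL⟩ := hLI p hp1 hp2
  have hp0 : 0 < p := by linarith
  refine ⟨3 ^ p * (p * (CL * (CF + CF * CW * (m₀ + 1) + CN * CW))), by positivity, ?_⟩
  intro τ hτ Nm g P hg hg0 hP
  obtain ⟨-, -, -, -, -, -, -, hR8, hR9, -⟩ := hRHO τ m₀ hτ
  have hτ0 : ∀ n, 0 < τ n := hτ.2.1
  obtain ⟨hL1, hL2, hL3⟩ := hL g hg.1 hg0
  -- coefficients
  set a : ℕ → ℝ := fun r => (∑ n ∈ farS τ Nm r,
        ((m₀ + n) * (τ n - τ (n + 1)) + (2⁻¹ : ℝ) ^ (m₀ + n))) +
      ∑ j ∈ farS τ Nm r, τ j ^ 2 * (2 ^ r * τ j) ^ ε with ha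
  set b : ℕ → ℝ := fun r => ∑ j ∈ Finset.range Nm,
      τ j * (min (τ j) ((2⁻¹ : ℝ) ^ r) * (2 ^ r * τ j) ^ (-ε)) with hb
  have ha0 : ∀ r, 0 ≤ a r := by
    intro r
    refine add_nonneg (Finset.sum_nonneg fun n _ => ?_) (Finset.sum_nonneg fun n _ => ?_)
    · have h1 : τ (n + 1) < τ n := hτ.1 (Nat.lt_succ_self n)
      have h2 : 0 ≤ τ n - τ (n + 1) := by linarith
      positivity
    · have := hτ0 n
      positivity
  have hb0 : ∀ r, 0 ≤ b r := by
    intro r
    refine Finset.sum_nonneg fun n _ => ?_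
    have := hτ0 n
    positivity
  set Sp : ℝ := ∑ n ∈ Finset.range Nm, τ n ^ p with hSp
  have hSp0 : 0 ≤ Sp := Finset.sum_nonneg fun n _ => by
    have := hτ0 n
    positivity
  set G : ℝ≥0∞ := ∫⁻ z, ENNReal.ofReal (g z) ^ p with hG
  set T : ℝ × ℝ → ℝ≥0∞ := fun z =>
    ⨆ k : ℤ, ‖∑ n ∈ Finset.range Nm, Vc τ m₀ k n g (z - (2 : ℝ) ^ k • P)‖ₑ with hT
  have hTm : Measurable T := by
    refine Measurable.iSup fun k => ?_
    refine Measurable.enorm ?_
    refine Finset.measurable_sum _ fun n _ => ?_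
    exact (hR8 n k g hg).2.1.comp (measurable_id.sub_const _)
  set F : ℝ × ℝ → ℝ≥0∞ := fun z => 3⁻¹ * T z with hFd
  have hFm : Measurable F := measurable_const.mul hTm
  set A : ℕ → ℝ → ℝ≥0∞ := fun r lam => ∫⁻ z, ENNReal.ofReal (Lv g lam r z) with hA
  set B : ℕ → ℝ → ℝ≥0∞ := fun r lam => ∫⁻ z, ENNReal.ofReal (Lv g lam r z) ^ 2 with hB
  set E : ℝ → ℝ≥0∞ := fun lam => ∫⁻ z in {z | lam < g z}, ENNReal.ofReal (g z) with hE
  have hAm : ∀ r, Measurable (A r) := fun r =>
    ((lv_meas hg.1 r).ennreal_ofReal).lintegral_prod_right'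
  have hBm : ∀ r, Measurable (B r) := fun r =>
    (((lv_meas hg.1 r).ennreal_ofReal).pow_const 2).lintegral_prod_right'
  have hEm : Measurable E := by
    have h1 : E = fun lam => ∫⁻ z, ({w : ℝ × (ℝ × ℝ) | w.1 < g w.2}.indicator
        (fun w => ENNReal.ofReal (g w.2))) (lam, z) := by
      funext lam
      simp only [hE]
      rw [← lintegral_indicator (measurableSet_lt measurable_const hg.1)]
      rfl
    rw [h1]
    refine Measurable.lintegral_prod_right' (f := {w : ℝ × (ℝ × ℝ) | w.1 < g w.2}.indicator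
        (fun w => ENNReal.ofReal (g w.2))) ?_
    exact ((hg.1.comp measurable_snd).ennreal_ofReal).indicator
      (measurableSet_lt measurable_fst (hg.1.comp measurable_snd))
  -- coefficient for `r ≥ 1`
  set a' : ℕ → ℝ := fun r => if 1 ≤ r then a r else 0 with ha'
  -- the key inequality
  have key : ∀ lam : ℝ, 0 < lam → volume {z | ENNReal.ofReal lam < F z} ≤
      ENNReal.ofReal (CF * lam⁻¹) * E lam +
        (∑' r : ℕ, ENNReal.ofReal (CF * lam⁻¹ * a' r) * A r lam +
          ∑' r : ℕ, ENNReal.ofReal (CN * (lam ^ 2)⁻¹ * b r) * B r lam) := by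
    intro lam hlam
    obtain ⟨K, hK1, hK2⟩ := hg.2
    obtain ⟨R, hR⟩ : ∃ R : ℕ, K ≤ 2 ^ R * lam := by
      obtain ⟨R, hR⟩ := pow_unbounded_of_one_lt (K / lam) (one_lt_two)
      refine ⟨R, ?_⟩
      rw [div_lt_iff₀ hlam] at hR
      exact hR.le
    have hgR : ∀ z, g z ≤ 2 ^ R * lam := fun z => (le_abs_self _).trans ((hK1 z).trans hR)
    have hsum : g = fun w => ∑ r ∈ Finset.range (R + 1), Lv g lam r w := by
      funext w
      rw [lv_sum g hlam w R, if_pos (hgR w)]
    have hsplit : ∀ (k : ℤ) (z : ℝ × ℝ), ∑ n ∈ Finset.range Nm, Vc τ m₀ k n g z =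
        ∑ r ∈ Finset.range (R + 1), ∑ n ∈ farS τ Nm r, Vc τ m₀ k n (Lv g lam r) z +
        ∑ r ∈ Finset.range (R + 1), ∑ n ∈ nearS τ Nm r, Vc τ m₀ k n (Lv g lam r) z := by
      intro k z
      rw [← Finset.sum_add_distrib]
      have h1 : ∀ n, Vc τ m₀ k n g z = ∑ r ∈ Finset.range (R + 1), Vc τ m₀ k n (Lv g lam r) z := by
        intro n
        have h2 := (vc_sum hEB (fun n k g h z hg hh => (hR9 n k g h z hg hh).1) n k
          (fun r => Lv g lam r) (fun r => lv_br hEB hg lam r) z R).2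
        rw [← h2]
        congr 1
      rw [Finset.sum_congr rfl fun n _ => h1 n, Finset.sum_comm]
      refine Finset.sum_congr rfl fun r _ => ?_
      have h3 := Finset.sum_filter_add_sum_filter_not (Finset.range Nm)
        (fun n => (2⁻¹ : ℝ) ^ r < τ n) (fun n => Vc τ m₀ k n (Lv g lam r) z)
      rw [← h3]
      simp only [farS, nearS, not_lt]
    have hsub : {z | ENNReal.ofReal lam < F z} ⊆
        {z : ℝ × ℝ | ∃ k : ℤ, 2 * lam < |∑ r ∈ Finset.range (R + 1),
          ∑ n ∈ farS τ Nm r, Vc τ m₀ k n (Lv g lam r) (z - (2 : ℝ) ^ k • P)|} ∪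
        {z : ℝ × ℝ | ∃ k : ℤ, lam < |∑ r ∈ Finset.range (R + 1),
          ∑ n ∈ nearS τ Nm r, Vc τ m₀ k n (Lv g lam r) (z - (2 : ℝ) ^ k • P)|} := by
      intro z hz
      have h1 : ENNReal.ofReal (3 * lam) < T z := by
        have h2 : ENNReal.ofReal lam < 3⁻¹ * T z := hz
        rw [mul_comm, ← div_eq_mul_inv, ENNReal.lt_div_iff_mul_lt (by simp) (by simp)] at h2
        rw [mul_comm, ENNReal.ofReal_mul hlam.le]
        simpa using h2
      rw [hT] at h1
      simp only [lt_iSup_iff] at h1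
      obtain ⟨k, hk⟩ := h1
      rw [hsplit, Real.enorm_eq_ofReal_abs, ENNReal.ofReal_lt_ofReal_iff_of_nonneg (by positivity)]
        at hk
      by_cases h5 : 2 * lam < |∑ r ∈ Finset.range (R + 1),
          ∑ n ∈ farS τ Nm r, Vc τ m₀ k n (Lv g lam r) (z - (2 : ℝ) ^ k • P)|
      · exact Or.inl ⟨k, h5⟩
      · refine Or.inr ⟨k, ?_⟩
        push Not at h5
        have h6 := abs_add_le (∑ r ∈ Finset.range (R + 1),
          ∑ n ∈ farS τ Nm r, Vc τ m₀ k n (Lv g lam r) (z - (2 : ℝ) ^ k • P))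
          (∑ r ∈ Finset.range (R + 1),
          ∑ n ∈ nearS τ Nm r, Vc τ m₀ k n (Lv g lam r) (z - (2 : ℝ) ^ k • P))
        linarith
    have h7 := hF τ m₀ hτ Nm R g lam P hg hg0 hlam hgR hP
    have h8 := hN τ m₀ hτ Nm R g lam P hg hg0 hlam
    have h9 : ∑ r ∈ Finset.Icc 1 R, ENNReal.ofReal (CF * lam⁻¹ * a r) *
          ∫⁻ z, ENNReal.ofReal (Lv g lam r z) ≤
        ∑' r : ℕ, ENNReal.ofReal (CF * lam⁻¹ * a' r) * A r lam := by
      refine le_trans (le_of_eq ?_) (ENNReal.sum_le_tsum (Finset.Icc 1 R))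
      refine Finset.sum_congr rfl fun r hr => ?_
      have h10 : a' r = a r := if_pos (Finset.mem_Icc.1 hr).1
      rw [h10]
    have h11 : ∑ r ∈ Finset.range (R + 1), ENNReal.ofReal (CN * (lam ^ 2)⁻¹ * b r) *
          ∫⁻ z, ENNReal.ofReal (Lv g lam r z) ^ 2 ≤
        ∑' r : ℕ, ENNReal.ofReal (CN * (lam ^ 2)⁻¹ * b r) * B r lam :=
      ENNReal.sum_le_tsum (Finset.range (R + 1))
    calc volume {z | ENNReal.ofReal lam < F z} ≤ _ := (measure_mono hsub).trans
          (measure_union_le _ _)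
      _ ≤ _ := add_le_add h7 h8
      _ ≤ _ := by
        rw [add_assoc]
        exact add_le_add_right (add_le_add h9 h11) _
  -- layer cake
  have hT3 : ∫⁻ z, T z ^ p = ENNReal.ofReal (3 ^ p) * ∫⁻ z, F z ^ p := by
    rw [← lintegral_const_mul _ (hFm.pow_const p)]
    refine lintegral_congr fun z => ?_
    rw [← ENNReal.ofReal_rpow_of_pos (by norm_num), ← ENNReal.mul_rpow_of_nonneg _ _ hp0.le]
    congr 1
    simp only [hFd]
    rw [← mul_assoc]
    have : ENNReal.ofReal 3 * 3⁻¹ = 1 := by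
      rw [show (ENNReal.ofReal 3) = (3 : ℝ≥0∞) by simp]
      exact ENNReal.mul_inv_cancel (by simp) (by simp)
    rw [this, one_mul]
  have hLC := hLCG.1 (ℝ × ℝ) volume p hp0 F hFm
  have hI : ∫⁻ z, F z ^ p ≤ ∫⁻ lam in Ioi (0 : ℝ),
      (ENNReal.ofReal (p * CF) * (ENNReal.ofReal (lam ^ (p - 2)) * E lam) +
        (∑' r : ℕ, ENNReal.ofReal (p * CF * a' r) * (ENNReal.ofReal (lam ^ (p - 2)) * A r lam) +
          ∑' r : ℕ, ENNReal.ofReal (p * CN * b r) *
            (ENNReal.ofReal (lam ^ (p - 3)) * B r lam))) := by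
    rw [hLC]
    refine setLIntegral_mono' measurableSet_Ioi fun lam hlam => ?_
    have hlam : 0 < lam := hlam
    have e1 : lam ^ (p - 2) = lam ^ (p - 1) * lam⁻¹ := by
      rw [show p - 2 = p - 1 - 1 by ring, Real.rpow_sub_one hlam.ne']
      rfl
    have e2 : lam ^ (p - 3) = lam ^ (p - 1) * (lam ^ 2)⁻¹ := by
      rw [show p - 3 = p - 1 - 2 by ring, Real.rpow_sub hlam, Real.rpow_two]
      rfl
    have hl1 : 0 ≤ lam ^ (p - 1) := Real.rpow_nonneg hlam.le _
    refine (mul_le_mul_right (key lam hlam) _).trans (le_of_eq ?_)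
    rw [mul_add, mul_add, ← ENNReal.tsum_mul_left, ← ENNReal.tsum_mul_left]
    congr 1
    · rw [← mul_assoc, ← mul_assoc, ← ENNReal.ofReal_mul (by positivity),
        ← ENNReal.ofReal_mul (by positivity), e1]
      congr 2
      ring
    · congr 1
      · refine tsum_congr fun r => ?_
        have h0 : 0 ≤ a' r := by
          simp only [ha']
          split_ifs
          · exact ha0 r
          · exact le_rfl
        rw [← mul_assoc, ← mul_assoc, ← ENNReal.ofReal_mul (by positivity),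
          ← ENNReal.ofReal_mul (by positivity), e1]
        congr 2
        ring
      · refine tsum_congr fun r => ?_
        have h0 := hb0 r
        rw [← mul_assoc, ← mul_assoc, ← ENNReal.ofReal_mul (by positivity),
          ← ENNReal.ofReal_mul (by positivity), e2]
        congr 2
        ring
  have hp2m : Measurable (fun lam : ℝ => ENNReal.ofReal (lam ^ (p - 2))) :=
    (measurable_id.pow_const _).ennreal_ofReal
  have hp3m : Measurable (fun lam : ℝ => ENNReal.ofReal (lam ^ (p - 3))) :=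
    (measurable_id.pow_const _).ennreal_ofReal
  have ha'0 : ∀ r, 0 ≤ a' r := by
    intro r
    simp only [ha']
    split_ifs
    · exact ha0 r
    · exact le_rfl
  have hJ : ∫⁻ lam in Ioi (0 : ℝ),
      (ENNReal.ofReal (p * CF) * (ENNReal.ofReal (lam ^ (p - 2)) * E lam) +
        (∑' r : ℕ, ENNReal.ofReal (p * CF * a' r) * (ENNReal.ofReal (lam ^ (p - 2)) * A r lam) +
          ∑' r : ℕ, ENNReal.ofReal (p * CN * b r) *
            (ENNReal.ofReal (lam ^ (p - 3)) * B r lam))) =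
      ENNReal.ofReal (p * CF) * (∫⁻ lam in Ioi (0 : ℝ), ENNReal.ofReal (lam ^ (p - 2)) * E lam) +
        (∑' r : ℕ, ENNReal.ofReal (p * CF * a' r) *
            (∫⁻ lam in Ioi (0 : ℝ), ENNReal.ofReal (lam ^ (p - 2)) * A r lam) +
          ∑' r : ℕ, ENNReal.ofReal (p * CN * b r) *
            (∫⁻ lam in Ioi (0 : ℝ), ENNReal.ofReal (lam ^ (p - 3)) * B r lam)) := by
    have m1 : Measurable fun lam : ℝ =>
        ENNReal.ofReal (p * CF) * (ENNReal.ofReal (lam ^ (p - 2)) * E lam) :=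
      measurable_const.mul (hp2m.mul hEm)
    have m2 : ∀ r, Measurable fun lam : ℝ =>
        ENNReal.ofReal (p * CF * a' r) * (ENNReal.ofReal (lam ^ (p - 2)) * A r lam) :=
      fun r => measurable_const.mul (hp2m.mul (hAm r))
    have m3 : ∀ r, Measurable fun lam : ℝ =>
        ENNReal.ofReal (p * CN * b r) * (ENNReal.ofReal (lam ^ (p - 3)) * B r lam) :=
      fun r => measurable_const.mul (hp3m.mul (hBm r))
    rw [lintegral_add_left m1, lintegral_add_left (Measurable.ennreal_tsum m2),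
      lintegral_tsum (fun r => (m2 r).aemeasurable), lintegral_tsum (fun r => (m3 r).aemeasurable)]
    have g1 : Measurable fun lam : ℝ => ENNReal.ofReal (lam ^ (p - 2)) * E lam := hp2m.mul hEm
    have g2 : ∀ r, Measurable fun lam : ℝ => ENNReal.ofReal (lam ^ (p - 2)) * A r lam :=
      fun r => hp2m.mul (hAm r)
    have g3 : ∀ r, Measurable fun lam : ℝ => ENNReal.ofReal (lam ^ (p - 3)) * B r lam :=
      fun r => hp3m.mul (hBm r)
    rw [lintegral_const_mul _ g1]
    congr 2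
    · refine tsum_congr fun r => ?_
      rw [lintegral_const_mul _ (g2 r)]
    · refine tsum_congr fun r => ?_
      rw [lintegral_const_mul _ (g3 r)]
  -- the three sums
  have s1 : ENNReal.ofReal (p * CF) *
      (∫⁻ lam in Ioi (0 : ℝ), ENNReal.ofReal (lam ^ (p - 2)) * E lam) ≤
      ENNReal.ofReal (p * CF * CL) * G := by
    rw [ENNReal.ofReal_mul (by positivity : (0 : ℝ) ≤ p * CF), mul_assoc]
    exact mul_le_mul_right hL1 _
  have s2 : ∑' r : ℕ, ENNReal.ofReal (p * CF * a' r) *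
            (∫⁻ lam in Ioi (0 : ℝ), ENNReal.ofReal (lam ^ (p - 2)) * A r lam) ≤
      ENNReal.ofReal (p * CF * CL * (CW * (m₀ + 1 + Sp))) * G := by
    refine ENNReal.tsum_le_of_sum_range_le fun N => ?_
    have h1 : ∀ r, ENNReal.ofReal (p * CF * a' r) *
            (∫⁻ lam in Ioi (0 : ℝ), ENNReal.ofReal (lam ^ (p - 2)) * A r lam) ≤
        ENNReal.ofReal (p * CF * CL * (a' r * (2 : ℝ) ^ (-(r * (p - 1))))) * G := by
      intro r
      have h0 := ha'0 r
      by_cases hr : 1 ≤ r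
      · calc ENNReal.ofReal (p * CF * a' r) *
            (∫⁻ lam in Ioi (0 : ℝ), ENNReal.ofReal (lam ^ (p - 2)) * A r lam) ≤
            ENNReal.ofReal (p * CF * a' r) *
              (ENNReal.ofReal (CL * (2 : ℝ) ^ (-(r * (p - 1)))) * G) :=
              mul_le_mul_right (hL2 r hr) _
          _ = _ := by
            rw [← mul_assoc, ← ENNReal.ofReal_mul (by positivity)]
            congr 2
            ring
      · have h2 : a' r = 0 := if_neg hr
        rw [h2]
        simp
    refine (Finset.sum_le_sum fun r _ => h1 r).trans ?_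
    rw [← Finset.sum_mul, ← ENNReal.ofReal_sum_of_nonneg]
    · refine mul_le_mul_left (ENNReal.ofReal_le_ofReal ?_) _
      rw [← Finset.mul_sum]
      refine mul_le_mul_of_nonneg_left ?_ (by positivity)
      have h3 := (hW τ m₀ hτ Nm N).1
      refine le_trans ?_ h3
      calc ∑ r ∈ Finset.range N, a' r * (2 : ℝ) ^ (-(r * (p - 1))) =
            ∑ r ∈ (Finset.range N).filter (fun r => 1 ≤ r), a r * (2 : ℝ) ^ (-(r * (p - 1))) := by
            rw [Finset.sum_filter]
            refine Finset.sum_congr rfl fun r _ => ?_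
            simp only [ha']
            split_ifs <;> simp
        _ ≤ ∑ r ∈ Finset.Icc 1 N, a r * (2 : ℝ) ^ (-(r * (p - 1))) := by
            refine Finset.sum_le_sum_of_subset_of_nonneg ?_ fun r _ _ => ?_
            · intro r hr
              rw [Finset.mem_filter, Finset.mem_range] at hr
              rw [Finset.mem_Icc]
              omega
            · have := ha0 r
              positivity
    · intro r _
      have := ha'0 r
      positivity
  have s3 : ∑' r : ℕ, ENNReal.ofReal (p * CN * b r) *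
            (∫⁻ lam in Ioi (0 : ℝ), ENNReal.ofReal (lam ^ (p - 3)) * B r lam) ≤
      ENNReal.ofReal (p * CN * CL * (CW * Sp)) * G := by
    refine ENNReal.tsum_le_of_sum_range_le fun N => ?_
    have h1 : ∀ r, ENNReal.ofReal (p * CN * b r) *
            (∫⁻ lam in Ioi (0 : ℝ), ENNReal.ofReal (lam ^ (p - 3)) * B r lam) ≤
        ENNReal.ofReal (p * CN * CL * (b r * (2 : ℝ) ^ (r * (2 - p)))) * G := by
      intro r
      have h0 := hb0 r
      calc ENNReal.ofReal (p * CN * b r) *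
            (∫⁻ lam in Ioi (0 : ℝ), ENNReal.ofReal (lam ^ (p - 3)) * B r lam) ≤
            ENNReal.ofReal (p * CN * b r) *
              (ENNReal.ofReal (CL * (2 : ℝ) ^ (r * (2 - p))) * G) :=
              mul_le_mul_right (hL3 r) _
        _ = _ := by
            rw [← mul_assoc, ← ENNReal.ofReal_mul (by positivity)]
            congr 2
            ring
    refine (Finset.sum_le_sum fun r _ => h1 r).trans ?_
    rw [← Finset.sum_mul, ← ENNReal.ofReal_sum_of_nonneg]
    · refine mul_le_mul_left (ENNReal.ofReal_le_ofReal ?_) _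
      rw [← Finset.mul_sum]
      refine mul_le_mul_of_nonneg_left ?_ (by positivity)
      have h3 := (hW τ m₀ hτ Nm N).2
      refine le_trans ?_ h3
      refine Finset.sum_le_sum_of_subset_of_nonneg (Finset.range_mono (Nat.le_succ N))
        fun r _ _ => ?_
      have := hb0 r
      exact mul_nonneg this (by positivity)
    · intro r _
      have := hb0 r
      positivity
  -- conclusion
  have hfin : ∫⁻ z, F z ^ p ≤
      ENNReal.ofReal (p * (CL * (CF + CF * CW * (m₀ + 1) + CN * CW)) * (1 + Sp)) * G := by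
    refine hI.trans ?_
    rw [hJ]
    refine (add_le_add s1 (add_le_add s2 s3)).trans ?_
    rw [← add_mul, ← add_mul, ← ENNReal.ofReal_add (by positivity) (by positivity),
      ← ENNReal.ofReal_add (by positivity) (by positivity)]
    refine mul_le_mul_left (ENNReal.ofReal_le_ofReal ?_) _
    have hm0 : (0 : ℝ) ≤ m₀ := Nat.cast_nonneg _
    have e : p * (CL * (CF + CF * CW * (m₀ + 1) + CN * CW)) * (1 + Sp) -
        (p * CF * CL + (p * CF * CL * (CW * (m₀ + 1 + Sp)) + p * CN * CL * (CW * Sp))) =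
        p * CL * CF * Sp + p * CL * CF * CW * m₀ * Sp + p * CL * CN * CW := by ring
    have e0 : 0 ≤ p * CL * CF * Sp + p * CL * CF * CW * m₀ * Sp + p * CL * CN * CW := by
      positivity
    linarith
  calc ∫⁻ z, T z ^ p = ENNReal.ofReal (3 ^ p) * ∫⁻ z, F z ^ p := hT3
    _ ≤ ENNReal.ofReal (3 ^ p) * (ENNReal.ofReal
        (p * (CL * (CF + CF * CW * (m₀ + 1) + CN * CW)) * (1 + Sp)) * G) :=
        mul_le_mul_right hfin _
    _ = _ := by
      rw [← mul_assoc, ← ENNReal.ofReal_mul (by positivity)]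
      congr 2
      ring

end Pool.Agent.Helper28.LM2
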